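import Pool.Agent.Run7.h104.Q2.Defs

/-! Piece TAIL of the project of helper104 (MP_5bfbcb_an, Q2) (helper344). -/

set_option autoImplicit false

namespace Pool.Agent.Run7.h344.Q2

open MeasureTheory AddCircle Complex Set Filter Topology Pool.Agent.W767.HL
  Pool.Agent.Run7.h104.Q2

lemma cont_zpow (n : ℤ) : Continuous fun θ => ze θ ^ n := by
  have : (fun θ => ze θ ^ n) = fun θ => (fourier n θ : ℂ) := by
    ext θ
    rw [fourier_eq]
  rw [this]
  exact (fourier n).continuous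

/-- the Poisson integral of a monomial -/
lemma int_zpow {z : ℂ} (hz : ‖z‖ < 1) (n : ℤ) :
    ‖∫ θ, (P z θ : ℂ) * ze θ ^ n ∂mu‖ ≤ ‖z‖ ^ n.natAbs := by
  obtain ⟨k, rfl | rfl⟩ := n.eq_nat_or_neg
  · have h := poisson (f := fun w => w ^ k) (differentiable_pow k) hz
    simp only [zpow_natCast, Int.natAbs_natCast]
    rw [h, norm_pow]
  · have h := poisson (f := fun w => w ^ k) (differentiable_pow k) hz
    have h2 : ∫ θ, (P z θ : ℂ) * ze θ ^ (-(k : ℤ)) ∂mu =
        (starRingEnd ℂ) (∫ θ, (P z θ : ℂ) * ze θ ^ k ∂mu) := by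
      rw [← integral_conj]
      refine integral_congr_ae (Eventually.of_forall fun θ => ?_)
      simp only [map_mul, map_pow, conj_ofReal, conj_ze, zpow_neg, zpow_natCast, inv_pow]
    rw [h2, h, RCLike.norm_conj, norm_pow, Int.natAbs_neg, Int.natAbs_natCast]

lemma quad {z : ℂ} (hz : ‖z‖ < 1) (s : Finset ℕ) (b : ℕ → ℂ) (e : ℕ → ℤ) :
    PI (fun θ => ‖∑ j ∈ s, b j * ze θ ^ (e j)‖ ^ 2) z ≤
      ∑ j ∈ s, ∑ k ∈ s, ‖b j‖ * ‖b k‖ * ‖z‖ ^ (e j - e k).natAbs := by
  have h1 : ((PI (fun θ => ‖∑ j ∈ s, b j * ze θ ^ (e j)‖ ^ 2) z : ℝ) : ℂ) =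
      ∑ j ∈ s, ∑ k ∈ s, (b j * (starRingEnd ℂ) (b k)) *
        ∫ θ, (P z θ : ℂ) * ze θ ^ (e j - e k) ∂mu := by
    unfold PI
    rw [← integral_complex_ofReal]
    have h2 : ∀ θ, ((P z θ * ‖∑ j ∈ s, b j * ze θ ^ (e j)‖ ^ 2 : ℝ) : ℂ) =
        ∑ j ∈ s, ∑ k ∈ s, (b j * (starRingEnd ℂ) (b k)) *
          ((P z θ : ℂ) * ze θ ^ (e j - e k)) := by
      intro θ
      have h3 : ((‖∑ j ∈ s, b j * ze θ ^ (e j)‖ ^ 2 : ℝ) : ℂ) =
          (∑ j ∈ s, b j * ze θ ^ (e j)) * (starRingEnd ℂ) (∑ j ∈ s, b j * ze θ ^ (e j)) := by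
        rw [Complex.mul_conj, Complex.normSq_eq_norm_sq]
      rw [ofReal_mul, h3, map_sum, Finset.sum_mul_sum, Finset.mul_sum]
      refine Finset.sum_congr rfl fun j _ => ?_
      rw [Finset.mul_sum]
      refine Finset.sum_congr rfl fun k _ => ?_
      rw [map_mul, map_zpow₀, conj_ze, zpow_sub₀ (ze_ne θ), inv_zpow]
      field_simp
    simp_rw [h2]
    have hi : ∀ j k, Integrable (fun θ => (b j * (starRingEnd ℂ) (b k)) *
        ((P z θ : ℂ) * ze θ ^ (e j - e k))) mu := fun j k =>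
      integrable_of_cont (continuous_const.mul
        ((continuous_ofReal.comp (continuous_P hz)).mul (cont_zpow _)))
    rw [integral_finsetSum _ fun j _ => integrable_finsetSum _ fun k _ => hi j k]
    refine Finset.sum_congr rfl fun j _ => ?_
    rw [integral_finsetSum _ fun k _ => hi j k]
    refine Finset.sum_congr rfl fun k _ => ?_
    rw [integral_const_mul]
  calc PI (fun θ => ‖∑ j ∈ s, b j * ze θ ^ (e j)‖ ^ 2) z
      ≤ ‖((PI (fun θ => ‖∑ j ∈ s, b j * ze θ ^ (e j)‖ ^ 2) z : ℝ) : ℂ)‖ := by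
        rw [Complex.norm_real]
        exact le_abs_self _
    _ ≤ _ := by
        rw [h1]
        refine (norm_sum_le _ _).trans (Finset.sum_le_sum fun j _ => ?_)
        refine (norm_sum_le _ _).trans (Finset.sum_le_sum fun k _ => ?_)
        rw [norm_mul, norm_mul, RCLike.norm_conj]
        exact mul_le_mul_of_nonneg_left (int_zpow hz _) (by positivity)

lemma half_sum (s : Finset ℕ) (j : ℕ) :
    ∑ k ∈ s, (1 / 2 : ℝ) ^ ((j : ℤ) - k).natAbs ≤ 3 := by
  obtain ⟨M, hM⟩ : ∃ M, ∀ k ∈ s, k < j + 1 + M := by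
    refine ⟨s.sup id + 1, fun k hk => ?_⟩
    have : k ≤ s.sup id := Finset.le_sup (f := id) hk
    omega
  have h1 : s ⊆ Finset.range (j + 1 + M) := fun k hk => Finset.mem_range.2 (hM k hk)
  refine (Finset.sum_le_sum_of_subset_of_nonneg h1 fun _ _ _ => by positivity).trans ?_
  rw [Finset.sum_range_add]
  have h2 : ∑ k ∈ Finset.range (j + 1), (1 / 2 : ℝ) ^ ((j : ℤ) - k).natAbs ≤ 2 := by
    rw [← Finset.sum_range_reflect]
    refine le_trans (Finset.sum_le_sum fun k hk => ?_) (sum_geometric_two_le (j + 1))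
    have hk' := Finset.mem_range.1 hk
    have : ((j : ℤ) - ((j + 1 - 1 - k : ℕ) : ℤ)).natAbs = k := by omega
    rw [this]
  have h3 : ∑ k ∈ Finset.range M, (1 / 2 : ℝ) ^ ((j : ℤ) - ((j + 1 + k : ℕ) : ℤ)).natAbs ≤ 1 := by
    have h4 : ∀ k ∈ Finset.range M, (1 / 2 : ℝ) ^ ((j : ℤ) - ((j + 1 + k : ℕ) : ℤ)).natAbs =
        1 / 2 * (1 / 2 : ℝ) ^ k := by
      intro k _
      have : ((j : ℤ) - ((j + 1 + k : ℕ) : ℤ)).natAbs = k + 1 := by omega
      rw [this, pow_succ, mul_comm]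
    rw [Finset.sum_congr rfl h4, ← Finset.mul_sum]
    have := sum_geometric_two_le M
    linarith
  linarith

lemma quad2 (s : Finset ℕ) (b : ℕ → ℝ) (q : ℕ → ℕ → ℝ)
    (hq : ∀ j ∈ s, ∀ k ∈ s, q j k ≤ (1 / 2 : ℝ) ^ ((j : ℤ) - k).natAbs) (hb : ∀ j, 0 ≤ b j) :
    ∑ j ∈ s, ∑ k ∈ s, b j * b k * q j k ≤ 3 * ∑ j ∈ s, b j ^ 2 := by
  have h1 : ∀ j ∈ s, ∀ k ∈ s, b j * b k * q j k ≤
      b j ^ 2 / 2 * (1 / 2 : ℝ) ^ ((j : ℤ) - k).natAbs +
        b k ^ 2 / 2 * (1 / 2 : ℝ) ^ ((j : ℤ) - k).natAbs := by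
    intro j hj k hk
    have h2 : b j * b k * q j k ≤ b j * b k * (1 / 2 : ℝ) ^ ((j : ℤ) - k).natAbs :=
      mul_le_mul_of_nonneg_left (hq j hj k hk) (mul_nonneg (hb j) (hb k))
    have h3 : b j * b k ≤ b j ^ 2 / 2 + b k ^ 2 / 2 := by nlinarith [sq_nonneg (b j - b k)]
    have h4 := mul_le_mul_of_nonneg_right h3
      (show 0 ≤ (1 / 2 : ℝ) ^ ((j : ℤ) - k).natAbs by positivity)
    linarith
  calc ∑ j ∈ s, ∑ k ∈ s, b j * b k * q j k
      ≤ ∑ j ∈ s, ∑ k ∈ s, (b j ^ 2 / 2 * (1 / 2 : ℝ) ^ ((j : ℤ) - k).natAbs +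
        b k ^ 2 / 2 * (1 / 2 : ℝ) ^ ((j : ℤ) - k).natAbs) :=
        Finset.sum_le_sum fun j hj => Finset.sum_le_sum fun k hk => h1 j hj k hk
    _ = ∑ j ∈ s, b j ^ 2 / 2 * ∑ k ∈ s, (1 / 2 : ℝ) ^ ((j : ℤ) - k).natAbs +
        ∑ k ∈ s, b k ^ 2 / 2 * ∑ j ∈ s, (1 / 2 : ℝ) ^ ((k : ℤ) - j).natAbs := by
        simp only [Finset.sum_add_distrib]
        congr 1
        · refine Finset.sum_congr rfl fun j _ => ?_
          rw [Finset.mul_sum]
        · rw [Finset.sum_comm]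
          refine Finset.sum_congr rfl fun k _ => ?_
          rw [Finset.mul_sum]
          refine Finset.sum_congr rfl fun j _ => ?_
          congr 2
          omega
    _ ≤ ∑ j ∈ s, b j ^ 2 / 2 * 3 + ∑ k ∈ s, b k ^ 2 / 2 * 3 :=
        add_le_add
          (Finset.sum_le_sum fun j _ => mul_le_mul_of_nonneg_left (half_sum s j) (by positivity))
          (Finset.sum_le_sum fun j _ => mul_le_mul_of_nonneg_left (half_sum s j) (by positivity))
    _ = 3 * ∑ j ∈ s, b j ^ 2 := by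
        rw [← Finset.sum_add_distrib, Finset.mul_sum]
        refine Finset.sum_congr rfl fun j _ => ?_
        ring

lemma KK_mono {m : ℕ → ℕ} {J : ℕ} {G : ℤ →₀ ℂ} {D0 : ℝ} (hD : 0 ≤ D0) {a i : ℕ} (h : a ≤ i) :
    KK m J G D0 a ≤ KK m J G D0 i := by
  unfold KK
  apply Nat.findGreatest_mono_left
  intro j hj
  refine le_trans (Real.exp_le_exp.2 ?_) hj
  have : (2 : ℝ) ^ a ≤ 2 ^ i := pow_le_pow_right₀ (by norm_num) h
  nlinarith

lemma ellf_cases (κ : ℝ) (m : ℕ → ℕ) (J : ℕ) (G : ℤ →₀ ℂ) (D0 : ℝ) (i : ℕ) :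
    ellf κ m J G D0 i = 1 ∨ ∃ a ≤ i, ellf κ m J G D0 i = 2 ^ a * D0 / (κ * m (KK m J G D0 a)) := by
  induction i with
  | zero =>
    rcases min_choice (1 : ℝ) (D0 / (κ * m (KK m J G D0 0))) with h | h
    · left; rw [ellf]; exact h
    · right
      refine ⟨0, le_rfl, ?_⟩
      rw [ellf, h, pow_zero, one_mul]
  | succ i ih =>
    rcases min_choice (ellf κ m J G D0 i) (2 ^ (i + 1) * D0 / (κ * m (KK m J G D0 (i + 1))))
      with h | h
    · rw [ellf, h]
      rcases ih with h1 | ⟨a, ha, h1⟩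
      · exact Or.inl h1
      · exact Or.inr ⟨a, by omega, h1⟩
    · right
      exact ⟨i + 1, le_rfl, by rw [ellf, h]⟩

lemma growth {L : ℕ} {η : ℝ} {m : ℕ → ℕ} {J : ℕ} {G : ℤ →₀ ℂ} (h : HLG L η m J G) {K k : ℕ}
    (hk : K < k) : ∀ l : ℕ, (m k : ℝ) + l * (η * m (K + 1)) ≤ m (k + l) := by
  intro l
  induction l with
  | zero => simp
  | succ l ih =>
    have h1 := h.hsep (k + l + 1) (by omega)
    rw [Nat.add_sub_cancel] at h1
    have h2 : (m (K + 1) : ℝ) ≤ m (k + l + 1) := by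
      exact_mod_cast h.hm.monotone (by omega)
    have h3 : η * m (K + 1) ≤ η * m (k + l + 1) := mul_le_mul_of_nonneg_left h2 h.hη.le
    rw [← Nat.add_assoc]
    push_cast
    linarith

lemma repr {L : ℕ} {η : ℝ} {m : ℕ → ℕ} {J : ℕ} {G : ℤ →₀ ℂ} (h : HLG L η m J G) (K : ℕ) :
    G - cut m K G = ∑ j ∈ Finset.Ioc K J, Finsupp.single (-(m j : ℤ)) (G (-(m j : ℤ))) := by
  ext n
  rw [Finsupp.sub_apply, Finsupp.finsetSum_apply, cut, Finsupp.filter_apply]
  by_cases hn : -(m K : ℤ) ≤ n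
  · rw [if_pos hn, sub_self]
    symm
    refine Finset.sum_eq_zero fun j hj => ?_
    rw [Finsupp.single_apply, if_neg]
    have h1 : m K < m j := h.hm (Finset.mem_Ioc.1 hj).1
    omega
  · rw [if_neg hn, sub_zero]
    by_cases hex : ∃ j ∈ Finset.Ioc K J, -(m j : ℤ) = n
    · obtain ⟨j, hj, rfl⟩ := hex
      rw [Finset.sum_eq_single j]
      · rw [Finsupp.single_apply, if_pos rfl]
      · intro k _ hkj
        rw [Finsupp.single_apply, if_neg]
        intro h1
        exact hkj (h.hm.injective (by omega))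
      · intro h1
        exact absurd hj h1
    · have h0 : ∑ j ∈ Finset.Ioc K J, (Finsupp.single (-(m j : ℤ)) (G (-(m j : ℤ)))) n = 0 := by
        refine Finset.sum_eq_zero fun j hj => ?_
        rw [Finsupp.single_apply, if_neg]
        intro h1
        exact hex ⟨j, hj, h1⟩
      rw [h0]
      by_cases hJ : n < -(m J : ℤ)
      · exact h.hJ n hJ
      · -- the least j with - m j ≤ n
        have hP : ∃ j, -(m j : ℤ) ≤ n := ⟨J, by omega⟩
        classical
        set j := Nat.find hP with hj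
        have hj1 : -(m j : ℤ) ≤ n := Nat.find_spec hP
        have hjJ : j ≤ J := Nat.find_min' hP (by omega)
        have hKj : K < j := by
          by_contra hc
          have : m j ≤ m K := h.hm.monotone (by omega)
          omega
        have hj2 : ¬ -(m (j - 1) : ℤ) ≤ n := Nat.find_min hP (by omega)
        have hj3 : -(m j : ℤ) ≠ n := fun h1 => hex ⟨j, Finset.mem_Ioc.2 ⟨hKj, hjJ⟩, h1⟩
        exact h.hG2 j (by omega) n (by omega) (by omega)

theorem prove_TAIL : S_TAIL := by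
  intro L η κ κ7 hκ hκ1 hη hκ7
  obtain ⟨Cm, hCm⟩ := exists_nat_ge (1 / (η * κ7))
  refine ⟨max 4 (1 / (η * κ7)), Cm, ?_⟩
  intro D0 hD m J G hG hKK hCmK i z hz0 hz1 hy
  have hηκ : 0 < η * κ7 := mul_pos hη hκ7
  have hD4 : 4 ≤ D0 := (le_max_left _ _).trans hD
  have hDη : 1 / (η * κ7) ≤ D0 := (le_max_right _ _).trans hD
  have hD0 : 0 ≤ D0 := by linarith
  set K := KK m J G D0 i with hK
  set y := dep z with hydef
  -- the value of η m (K+1) y
  have hK0 : KK m J G D0 0 ≤ K := KK_mono hD0 (Nat.zero_le i)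
  have hτ : 1 ≤ η * m (K + 1) * y := by
    have hm1 : (0 : ℝ) ≤ m (K + 1) := by positivity
    have h1 : η * m (K + 1) * (κ7 * ellf κ m J G D0 i) ≤ η * m (K + 1) * y :=
      mul_le_mul_of_nonneg_left hy (by positivity)
    refine le_trans ?_ h1
    rcases ellf_cases κ m J G D0 i with h2 | ⟨a, ha, h2⟩
    · rw [h2, mul_one]
      have h3 : (Cm : ℝ) ≤ m (K + 1) := by
        have : m (KK m J G D0 0) ≤ m (K + 1) := hG.hm.monotone (by omega)
        exact_mod_cast hCmK.trans this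
      have h4 : 1 / (η * κ7) ≤ m (K + 1) := hCm.trans h3
      rw [div_le_iff₀ hηκ] at h4
      linarith
    · rw [h2]
      have hKa : KK m J G D0 a ≤ K := KK_mono hD0 ha
      have hKa1 : 1 ≤ KK m J G D0 a := hKK.trans (KK_mono hD0 (Nat.zero_le a))
      have hma : 0 < m (KK m J G D0 a) := by
        have := hG.hm (show 0 < KK m J G D0 a by omega)
        omega
      have hma' : (0 : ℝ) < m (KK m J G D0 a) := by exact_mod_cast hma
      have h3 : (m (KK m J G D0 a) : ℝ) ≤ m (K + 1) := by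
        exact_mod_cast hG.hm.monotone (by omega)
      have h4 : D0 ≤ m (K + 1) * (2 ^ a * D0 / (κ * m (KK m J G D0 a))) := by
        rw [mul_div_assoc', le_div_iff₀ (by positivity)]
        have h5 : κ * m (KK m J G D0 a) ≤ m (K + 1) := by nlinarith
        have h6 : (1 : ℝ) ≤ 2 ^ a := one_le_pow₀ (by norm_num)
        have h7 : D0 * (κ * m (KK m J G D0 a)) ≤ D0 * m (K + 1) :=
          mul_le_mul_of_nonneg_left h5 hD0
        have h8 : D0 * m (K + 1) * 1 ≤ D0 * m (K + 1) * 2 ^ a :=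
          mul_le_mul_of_nonneg_left h6 (by positivity)
        linarith
      rw [div_le_iff₀ hηκ] at hDη
      have h9 := mul_le_mul_of_nonneg_left h4 hηκ.le
      linarith
  have hzy : ‖z‖ = Real.exp (-y) := by
    rw [hydef, dep, neg_neg, Real.exp_log (norm_pos_iff.2 hz0)]
  have hy0 : 0 < y := by
    by_contra hc
    push Not at hc
    have : η * m (K + 1) * y ≤ 0 := mul_nonpos_of_nonneg_of_nonpos (by positivity) hc
    linarith
  -- decay of the kernel
  have hdec : ∀ j k : ℕ, K < k → k ≤ j →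
      ‖z‖ ^ (m j - m k) ≤ (1 / 2 : ℝ) ^ (j - k) := by
    intro j k hk hkj
    have h1 := growth hG hk (j - k)
    rw [Nat.add_sub_cancel' hkj] at h1
    have h2 : m k ≤ m j := hG.hm.monotone hkj
    rw [hzy, ← Real.exp_nat_mul]
    have h3 : (1 / 2 : ℝ) ^ (j - k) ≥ Real.exp (-1) ^ (j - k) := by
      apply pow_le_pow_left₀ (Real.exp_pos _).le
      rw [Real.exp_neg, one_div]
      apply inv_anti₀ (by norm_num)
      have := Real.add_one_le_exp (1 : ℝ)
      linarith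
    refine le_trans ?_ h3
    rw [← Real.exp_nat_mul]
    apply Real.exp_le_exp.2
    rw [Nat.cast_sub h2]
    have h4 : ((j - k : ℕ) : ℝ) * 1 ≤ ((j - k : ℕ) : ℝ) * (η * m (K + 1) * y) :=
      mul_le_mul_of_nonneg_left hτ (by positivity)
    have h5 : ((j - k : ℕ) : ℝ) * (η * m (K + 1)) * y ≤ ((m j : ℝ) - m k) * y :=
      mul_le_mul_of_nonneg_right (by linarith) hy0.le
    linarith
  -- the sum of squares
  have hρ : ∑ j ∈ Finset.Ioc K J, ‖G (-(m j : ℤ))‖ ^ 2 ≤ Real.exp (-(2 * (2 ^ i * D0))) := by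
    by_cases hKJ : K + 1 ≤ J
    · have h1 : ¬ Real.exp (-(2 * (2 ^ i * D0))) ≤ rho2 m J G (K + 1) :=
        Nat.findGreatest_is_greatest (P := fun j => Real.exp (-(2 * (2 ^ i * D0))) ≤ rho2 m J G j)
          (by rw [hK]; unfold KK; omega) hKJ
      push Not at h1
      have h2 : rho2 m J G (K + 1) = ∑ j ∈ Finset.Ioc K J, ‖G (-(m j : ℤ))‖ ^ 2 := by
        unfold rho2
        refine Finset.sum_congr ?_ fun _ _ => rfl
        ext j
        simp only [Finset.mem_Icc, Finset.mem_Ioc]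
        omega
      rw [← h2]
      exact h1.le
    · rw [Finset.Ioc_eq_empty (by omega), Finset.sum_empty]
      exact (Real.exp_pos _).le
  -- the function
  have hev : ∀ θ, ev (G - ff m J G D0 i) (ze θ) =
      ∑ j ∈ Finset.Ioc K J, G (-(m j : ℤ)) * ze θ ^ (-(m j : ℤ)) := by
    intro θ
    have h1 : G - ff m J G D0 i =
        ∑ j ∈ Finset.Ioc K J, Finsupp.single (-(m j : ℤ)) (G (-(m j : ℤ))) := repr hG K
    rw [h1]
    unfold ev
    rw [map_sum]
    simp
  simp_rw [hev]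
  refine (quad hz1 (Finset.Ioc K J) (fun j => G (-(m j : ℤ))) (fun j => -(m j : ℤ))).trans ?_
  refine (quad2 (Finset.Ioc K J) (fun j => ‖G (-(m j : ℤ))‖)
    (fun j k => ‖z‖ ^ (-(m j : ℤ) - -(m k : ℤ)).natAbs) ?_ (fun _ => norm_nonneg _)).trans ?_
  · intro j hj k hk
    have hj' := Finset.mem_Ioc.1 hj
    have hk' := Finset.mem_Ioc.1 hk
    rcases le_total k j with hkj | hkj
    · have h1 : (-(m j : ℤ) - -(m k : ℤ)).natAbs = m j - m k := by
        have : m k ≤ m j := hG.hm.monotone hkj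
        omega
      have h2 : ((j : ℤ) - k).natAbs = j - k := by omega
      simp only [h1, h2]
      exact hdec j k hk'.1 hkj
    · have h1 : (-(m j : ℤ) - -(m k : ℤ)).natAbs = m k - m j := by
        have : m j ≤ m k := hG.hm.monotone hkj
        omega
      have h2 : ((j : ℤ) - k).natAbs = k - j := by omega
      simp only [h1, h2]
      exact hdec k j hj'.1 hkj
  · have hX : 4 ≤ 2 ^ i * D0 := by
      have h6 : (1 : ℝ) ≤ 2 ^ i := one_le_pow₀ (by norm_num)
      nlinarith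
    have h3 : (3 : ℝ) ≤ Real.exp (1 / 2 * (2 ^ i * D0)) := by
      have h4 := Real.add_one_le_exp (1 / 2 * (2 ^ i * D0))
      linarith
    have h5 : Real.exp (-(3 / 2 * (2 ^ i * D0))) =
        Real.exp (1 / 2 * (2 ^ i * D0)) * Real.exp (-(2 * (2 ^ i * D0))) := by
      rw [← Real.exp_add]
      congr 1
      ring
    rw [h5]
    exact mul_le_mul h3 hρ (Finset.sum_nonneg fun _ _ => by positivity) (Real.exp_pos _).le

end Pool.Agent.Run7.h344.Q2
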